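import Mathlib

set_option autoImplicit false

namespace Pool.Agent.R322.CPM

open Finset

theorem cmp_lt (ρ : ℚ) (e : ℤ) (h : ρ < e) : ⌊ρ⌋ + ⌈ρ⌉ < 2 * e := by
  have h1 : ⌊ρ⌋ < e := Int.floor_lt.2 h
  have h2 : ⌈ρ⌉ ≤ e := Int.ceil_le.2 h.le
  omega

theorem cmp_gt (ρ : ℚ) (e : ℤ) (h : (e : ℚ) < ρ) : 2 * e < ⌊ρ⌋ + ⌈ρ⌉ := by
  have h1 : e ≤ ⌊ρ⌋ := Int.le_floor.2 h.le
  have h2 : e < ⌈ρ⌉ := Int.lt_ceil.2 h
  omega

theorem cmp_ge (ρ : ℚ) (e : ℤ) (h : (e : ℚ) ≤ ρ) : 2 * e ≤ ⌊ρ⌋ + ⌈ρ⌉ := by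
  have h1 : e ≤ ⌊ρ⌋ := Int.le_floor.2 h
  have h2 : ⌊ρ⌋ ≤ ⌈ρ⌉ := Int.floor_le_ceil ρ
  omega

theorem cmp_le (ρ : ℚ) (e : ℤ) (h : ρ ≤ (e : ℚ)) : ⌊ρ⌋ + ⌈ρ⌉ ≤ 2 * e := by
  have h1 : ⌈ρ⌉ ≤ e := Int.ceil_le.2 h
  have h2 : ⌊ρ⌋ ≤ ⌈ρ⌉ := Int.floor_le_ceil ρ
  omega

/-- the bound -/
def bd (X : ℕ) : ℕ := 8 * (X.factorial) * (X + 2) ^ 2

theorem core' (S : ℕ → Prop) (F : ℕ) (hF1 : 1 ≤ F) (hF : ∀ x, F < x → S x) (t0 : ℕ)
    (ht0 : 1 ≤ t0) (ht0F : t0 ≤ F) (ht0S : ¬ S t0) (a b c d : ℕ) (hab : a < b)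
    (h : ∀ x, 1 ≤ x → (S x ↔ a * x % b + d ≤ c * x)) :
    ∃ a' b' c' d' : ℕ, a' ≤ bd (2 * F + 1) ∧ b' ≤ bd (2 * F + 1) ∧ c' ≤ bd (2 * F + 1) ∧
      d' ≤ bd (2 * F + 1) ∧ 0 < b' ∧ 0 < c' ∧
      ∀ x, 1 ≤ x → x ≤ 2 * F + 1 → (S x ↔ a' * x % b' + d' ≤ c' * x) := by
  classical
  have hb : 0 < b := by omega
  obtain ⟨X, hX⟩ : ∃ X, X = 2 * F + 1 := ⟨_, rfl⟩
  rw [← hX]
  have hX0 : 0 < X := by omega
  set K := X.factorial with hK
  have hK0 : 0 < K := Nat.factorial_pos X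
  have hdvd : ∀ q, 1 ≤ q → q ≤ X → q ∣ K := fun q h1 h2 => Nat.dvd_factorial (by omega) h2
  let n : ℕ → ℕ := fun x => a * x / b
  have hn : ∀ x, a * x % b + b * n x = a * x := fun x => Nat.mod_add_div _ _
  have hnle : ∀ x, n x ≤ x := by
    intro x
    apply Nat.div_le_of_le_mul
    nlinarith
  set γ : ℚ := ((c : ℚ) - a) / b with hγ
  have hbQ : (0:ℚ) < b := by exact_mod_cast hb
  have hγb : γ * b = (c : ℚ) - a := by rw [hγ]; field_simp
  set ρ : ℚ := K * min γ (X + 1) with hρ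
  have hKQ : (0:ℚ) < K := by exact_mod_cast hK0
  set g : ℤ := ⌊ρ⌋ + ⌈ρ⌉ with hg
  -- inequalities from the hypothesis
  have hSle : ∀ s, 1 ≤ s → S s → (d : ℚ) ≤ (γ * s + n s) * b := by
    intro s hs1 hs
    have h1 := (h s hs1).1 hs
    have h2 := hn s
    have h3 : (d : ℚ) + a * s ≤ c * s + b * n s := by
      have : d + a * s ≤ c * s + b * n s := by omega
      exact_mod_cast this
    have h4 : (γ * s + n s) * b = (γ * b) * s + b * n s := by ring
    rw [h4, hγb]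
    linarith
  have hTlt : ∀ t, 1 ≤ t → ¬ S t → (γ * t + n t) * b < (d : ℚ) := by
    intro t ht1 ht
    have h1 : ¬ (a * t % b + d ≤ c * t) := fun h' => ht ((h t ht1).2 h')
    have h2 := hn t
    have h3 : (c * t + b * n t : ℚ) < (d : ℚ) + a * t := by
      have : c * t + b * n t < d + a * t := by omega
      exact_mod_cast this
    have h4 : (γ * t + n t) * b = (γ * b) * t + b * n t := by ring
    rw [h4, hγb]
    linarith
  -- transfer
  have hpair : ∀ s t, 1 ≤ s → s ≤ X → 1 ≤ t → t ≤ X → S s → ¬ S t →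
      g * t + 2 * K * n t < g * s + 2 * K * n s := by
    intro s t hs1 hsX ht1 htX hs ht
    have h1 : γ * t + n t < γ * s + n s := by
      have := lt_of_lt_of_le (hTlt t ht1 ht) (hSle s hs1 hs)
      exact lt_of_mul_lt_mul_right this hbQ.le
    rcases lt_trichotomy s t with hst | hst | hst
    · obtain ⟨k, hk⟩ := hdvd (t - s) (by omega) (by omega)
      have hq : (((t - s : ℕ) : ℤ)) = (t : ℤ) - s := by omega
      have hqQ : (((t - s : ℕ) : ℚ)) = (t : ℚ) - s := by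
        rw [Nat.cast_sub hst.le]
      have hkQ : (K : ℚ) = ((t : ℚ) - s) * k := by rw [← hqQ]; exact_mod_cast hk
      have hkZ : (K : ℤ) = ((t : ℤ) - s) * k := by rw [← hq]; exact_mod_cast hk
      have hk0 : (0:ℚ) < k := by
        have : 0 < k := by
          rcases Nat.eq_zero_or_pos k with h0 | h0
          · rw [h0, mul_zero] at hk; omega
          · exact h0
        exact_mod_cast this
      have h2 : ρ < ((k * ((n s : ℤ) - n t) : ℤ) : ℚ) := by
        push_cast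
        calc ρ ≤ K * γ := by rw [hρ]; gcongr; exact min_le_left _ _
          _ = k * (γ * ((t : ℚ) - s)) := by rw [hkQ]; ring
          _ < k * ((n s : ℚ) - n t) := by
            apply mul_lt_mul_of_pos_left _ hk0
            linarith
      have h3 := cmp_lt _ _ h2
      rw [← hg] at h3
      have hts : (0:ℤ) < (t : ℤ) - s := by omega
      have h4 := mul_lt_mul_of_pos_right h3 hts
      have h5 : 2 * (k * ((n s : ℤ) - n t)) * ((t : ℤ) - s) = 2 * K * (n s) - 2 * K * n t := by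
        rw [hkZ]; ring
      rw [h5] at h4
      linarith
    · subst hst; exact absurd hs ht
    · obtain ⟨k, hk⟩ := hdvd (s - t) (by omega) (by omega)
      have hq : (((s - t : ℕ) : ℤ)) = (s : ℤ) - t := by omega
      have hqQ : (((s - t : ℕ) : ℚ)) = (s : ℚ) - t := by
        rw [Nat.cast_sub hst.le]
      have hkQ : (K : ℚ) = ((s : ℚ) - t) * k := by rw [← hqQ]; exact_mod_cast hk
      have hkZ : (K : ℤ) = ((s : ℤ) - t) * k := by rw [← hq]; exact_mod_cast hk
      have hk0 : (0:ℚ) < k := by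
        have : 0 < k := by
          rcases Nat.eq_zero_or_pos k with h0 | h0
          · rw [h0, mul_zero] at hk; omega
          · exact h0
        exact_mod_cast this
      have hst' : (1:ℚ) ≤ (s : ℚ) - t := by
        rw [← hqQ]; exact_mod_cast (by omega : 1 ≤ s - t)
      have h2 : ((k * ((n t : ℤ) - n s) : ℤ) : ℚ) < ρ := by
        push_cast
        have hmin : ((n t : ℚ) - n s) < min γ (X + 1) * ((s : ℚ) - t) := by
          rcases le_total γ ((X : ℚ) + 1) with hle | hle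
          · rw [min_eq_left hle]; linarith
          · rw [min_eq_right hle]
            have h5 : (n t : ℚ) ≤ X := by exact_mod_cast (hnle t).trans htX
            have h6 : (0:ℚ) ≤ n s := Nat.cast_nonneg _
            have h7 : (0:ℚ) ≤ X := Nat.cast_nonneg _
            nlinarith
        calc (k : ℚ) * ((n t : ℚ) - n s) < k * (min γ (X + 1) * ((s : ℚ) - t)) :=
              mul_lt_mul_of_pos_left hmin hk0
          _ = ρ := by rw [hρ, hkQ]; ring
      have h3 := cmp_gt _ _ h2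
      rw [← hg] at h3
      have hts : (0:ℤ) < (s : ℤ) - t := by omega
      have h4 := mul_lt_mul_of_pos_right h3 hts
      have h5 : 2 * (k * ((n t : ℤ) - n s)) * ((s : ℤ) - t) = 2 * K * (n t) - 2 * K * n s := by
        rw [hkZ]; ring
      rw [h5] at h4
      linarith
  have hnonneg : ∀ s, 1 ≤ s → s ≤ X → S s → 0 ≤ g * s + 2 * K * n s := by
    intro s hs1 hsX hs
    obtain ⟨k, hk⟩ := hdvd s hs1 hsX
    have hkQ : (K : ℚ) = (s : ℚ) * k := by exact_mod_cast hk
    have hkZ : (K : ℤ) = (s : ℤ) * k := by exact_mod_cast hk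
    have hk0 : (0:ℚ) ≤ k := Nat.cast_nonneg _
    have hsQ : (0:ℚ) < s := by exact_mod_cast hs1
    have h1 : 0 ≤ γ * s + n s := by
      have h2 := hSle s hs1 hs
      have h3 : (0:ℚ) ≤ d := Nat.cast_nonneg _
      have h4 : 0 ≤ (γ * s + n s) * b := h3.trans h2
      exact nonneg_of_mul_nonneg_left h4 hbQ
    have hmin : -(n s : ℚ) ≤ min γ (X + 1) * s := by
      rcases le_total γ ((X : ℚ) + 1) with hle | hle
      · rw [min_eq_left hle]; linarith
      · rw [min_eq_right hle]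
        have h6 : (0:ℚ) ≤ n s := Nat.cast_nonneg _
        have h7 : (0:ℚ) ≤ X := Nat.cast_nonneg _
        nlinarith
    have h2 : ((-(k * (n s : ℤ)) : ℤ) : ℚ) ≤ ρ := by
      push_cast
      calc -((k : ℚ) * (n s : ℚ)) = k * (-(n s : ℚ)) := by ring
        _ ≤ k * (min γ (X + 1) * s) := mul_le_mul_of_nonneg_left hmin hk0
        _ = ρ := by rw [hρ, hkQ]; ring
    have h3 := cmp_ge _ _ h2
    rw [← hg] at h3
    have hs0 : (0:ℤ) ≤ s := by omega
    have h4 := mul_le_mul_of_nonneg_right h3 hs0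
    have h5 : 2 * (-(k * (n s : ℤ))) * (s : ℤ) = - (2 * K * n s) := by
      rw [hkZ]; ring
    rw [h5] at h4
    linarith
  have hgle : g ≤ 2 * (K * (X + 1)) := by
    have h1 : ρ ≤ ((K * (X + 1) : ℤ) : ℚ) := by
      push_cast
      rw [hρ]; gcongr; exact min_le_right _ _
    have := cmp_le _ _ h1
    rw [← hg] at this
    exact this
  -- new parameters
  let A : ℕ := K * a / b
  have hA : A ≤ K := by
    apply Nat.div_le_of_le_mul
    nlinarith
  have hdiv : ∀ x, 1 ≤ x → x ≤ X → 2 * A * x / (2 * K) = n x := by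
    intro x hx1 hxX
    obtain ⟨k, hk⟩ := hdvd x hx1 hxX
    have hk0 : 0 < k := by
      rcases Nat.eq_zero_or_pos k with h0 | h0
      · rw [h0, mul_zero] at hk; omega
      · exact h0
    rw [mul_assoc, Nat.mul_div_mul_left _ _ (by norm_num : 0 < 2), hk, mul_comm A x,
      Nat.mul_div_mul_left _ _ (by omega : 0 < x)]
    show K * a / b / k = a * x / b
    rw [Nat.div_div_eq_div_mul, hk, show x * k * a = (a * x) * k by ring,
      Nat.mul_div_mul_right _ _ hk0]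
  -- the minimal value
  have hne : ((Finset.Icc 1 X).filter (fun s => S s)).Nonempty := by
    refine ⟨F + 1, ?_⟩
    rw [mem_filter, mem_Icc]
    exact ⟨⟨by omega, by omega⟩, hF _ (by omega)⟩
  obtain ⟨s0, hs0, hmin⟩ := Finset.exists_min_image _ (fun s : ℕ => g * s + 2 * K * n s) hne
  rw [mem_filter, mem_Icc] at hs0
  obtain ⟨⟨hs01, hs0X⟩, hs0S⟩ := hs0
  have hmin' : ∀ s, 1 ≤ s → s ≤ X → S s → g * s0 + 2 * K * n s0 ≤ g * s + 2 * K * n s := by
    intro s h1 h2 h3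
    exact hmin s (by rw [mem_filter, mem_Icc]; exact ⟨⟨h1, h2⟩, h3⟩)
  obtain ⟨d', hd'⟩ : ∃ d' : ℕ, (d' : ℤ) = g * s0 + 2 * K * n s0 :=
    ⟨(g * s0 + 2 * K * n s0).toNat, Int.toNat_of_nonneg (hnonneg s0 hs01 hs0X hs0S)⟩
  -- c'
  have hmodZ : ∀ x, 1 ≤ x → x ≤ X →
      ((2 * A * x % (2 * K) : ℕ) : ℤ) = 2 * A * x - 2 * K * n x := by
    intro x h1 h2
    have h3 := Nat.mod_add_div (2 * A * x) (2 * K)
    rw [hdiv x h1 h2] at h3
    have h4 : ((2 * A * x % (2 * K) : ℕ) : ℤ) + 2 * K * n x = 2 * A * x := by exact_mod_cast h3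
    linarith
  have hchar : ∀ x, 1 ≤ x → x ≤ X → (S x ↔ ((2 * A * x % (2 * K) : ℕ) : ℤ) + d' ≤ (2 * A + g) * x) := by
    intro x h1 h2
    rw [hmodZ x h1 h2, hd']
    constructor
    · intro hx
      have := hmin' x h1 h2 hx
      linarith
    · intro hx
      by_contra hcon
      have := hpair s0 x hs01 hs0X h1 h2 hs0S hcon
      linarith
  have hcge : 0 < 2 * (A : ℤ) + g := by
    have hF1' : 1 ≤ F + 1 := by omega
    have e1 := (hchar (F + 1) (by omega) (by omega)).1 (hF _ (by omega))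
    have e2 := (hchar (F + 2) (by omega) (by omega)).1 (hF _ (by omega))
    have hge : 0 ≤ 2 * (A : ℤ) + g := by
      by_contra hneg
      push Not at hneg
      have : (2 * (A : ℤ) + g) * ((F + 1 : ℕ) : ℤ) < 0 :=
        mul_neg_of_neg_of_pos hneg (by positivity)
      have h0 : (0:ℤ) ≤ ((2 * A * (F + 1) % (2 * K) : ℕ) : ℤ) := by positivity
      have h0' : (0:ℤ) ≤ (d' : ℤ) := by positivity
      linarith
    rcases hge.lt_or_eq with hlt | heq
    · exact hlt
    · exfalso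
      rw [← heq, zero_mul] at e1 e2
      have f1 : 2 * A * (F + 1) % (2 * K) = 0 := by
        have : (0:ℤ) ≤ ((2 * A * (F + 1) % (2 * K) : ℕ) : ℤ) := by positivity
        have h0' : (0:ℤ) ≤ (d' : ℤ) := by positivity
        omega
      have f2 : 2 * A * (F + 2) % (2 * K) = 0 := by
        have : (0:ℤ) ≤ ((2 * A * (F + 2) % (2 * K) : ℕ) : ℤ) := by positivity
        have h0' : (0:ℤ) ≤ (d' : ℤ) := by positivity
        omega
      have f3 : d' = 0 := by
        have : (0:ℤ) ≤ ((2 * A * (F + 2) % (2 * K) : ℕ) : ℤ) := by positivity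
        omega
      have f4 : 2 * K ∣ 2 * A := by
        have g1 := Nat.dvd_of_mod_eq_zero f1
        have g2 := Nat.dvd_of_mod_eq_zero f2
        have g3 := Nat.dvd_sub g2 g1
        have g4 : 2 * A * (F + 2) - 2 * A * (F + 1) = 2 * A := by
          have : 2 * A * (F + 2) = 2 * A * (F + 1) + 2 * A := by ring
          omega
        rwa [g4] at g3
      apply ht0S
      rw [hchar t0 ht0 (by omega), ← heq, zero_mul, f3, Nat.mod_eq_zero_of_dvd (f4.mul_right t0)]
      simp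
  obtain ⟨c', hc'⟩ : ∃ c' : ℕ, (c' : ℤ) = 2 * A + g := ⟨(2 * (A:ℤ) + g).toNat, Int.toNat_of_nonneg hcge.le⟩
  have hbdd : bd X = 8 * K * (X + 2) ^ 2 := rfl
  have hX1 : 1 ≤ X := hX0
  have hB1 : 2 * K ≤ bd X := by
    rw [hbdd]; nlinarith
  refine ⟨2 * A, 2 * K, c', d', ?_, hB1, ?_, ?_, by omega, by omega, ?_⟩
  · exact le_trans (by omega) hB1
  · have : (c' : ℤ) ≤ (bd X : ℕ) := by
      rw [hc', hbdd]
      push_cast
      have hAZ : (A : ℤ) ≤ K := by exact_mod_cast hA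
      have hKZ : (1:ℤ) ≤ K := by exact_mod_cast hK0
      have hXZ : (1:ℤ) ≤ X := by exact_mod_cast hX1
      nlinarith
    exact_mod_cast this
  · have : (d' : ℤ) ≤ (bd X : ℕ) := by
      rw [hd', hbdd]
      push_cast
      have hns : (n s0 : ℤ) ≤ X := by exact_mod_cast (hnle s0).trans hs0X
      have hs0Z : (s0 : ℤ) ≤ X := by exact_mod_cast hs0X
      have hs0Z' : (0 : ℤ) ≤ s0 := by positivity
      have hKZ : (1:ℤ) ≤ K := by exact_mod_cast hK0
      have hXZ : (1:ℤ) ≤ X := by exact_mod_cast hX1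
      have h1 : g * s0 ≤ 2 * (K * (X + 1)) * X := by
        calc g * s0 ≤ 2 * (K * (X + 1)) * s0 := mul_le_mul_of_nonneg_right hgle hs0Z'
          _ ≤ _ := mul_le_mul_of_nonneg_left hs0Z (by positivity)
      have h2 : 2 * (K:ℤ) * n s0 ≤ 2 * K * X := mul_le_mul_of_nonneg_left hns (by positivity)
      nlinarith
    exact_mod_cast this
  · intro x h1 h2
    rw [hchar x h1 h2, ← hc']
    constructor
    · intro h3; exact_mod_cast h3
    · intro h3; exact_mod_cast h3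

end Pool.Agent.R322.CPM
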